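import Pool.Agent.TH380.BW.Mix
import Mathlib.Analysis.SpecialFunctions.Pow.Real

/-!
Corner-free sets decided by machines with few states: power saving.
-/

set_option autoImplicit false

open Finset Function

namespace Pool.Agent.TH380.BW

/-- A nondeterministic machine with state set `Q` over the alphabet `G`; the transitions may depend
on the time. -/
structure Machine (Q G : Type) where
  /-- initial states -/
  start : Q → Prop
  /-- `step t q g q'`: at time `t`, in the state `q`, after reading `g`, it may enter the state `q'` -/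
  step : ℕ → Q → G → Q → Prop
  /-- accepting states -/
  accept : Q → Prop

/-- The machine reads the `2 n` coordinates of `(x, y)` in the given order, each one once
(`inl i` is the coordinate `x i`, `inr i` is the coordinate `y i`), and has an accepting run. -/
def Machine.Accepts {Q G : Type} (M : Machine Q G) {n : ℕ} (order : Fin (2 * n) ≃ Fin n ⊕ Fin n)
    (p : (Fin n → G) × (Fin n → G)) : Prop :=
  ∃ r : ℕ → Q, M.start (r 0) ∧ M.accept (r (2 * n)) ∧
    ∀ t : Fin (2 * n), M.step t (r t) (Sum.elim p.1 p.2 (order t)) (r (t + 1))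

section
variable {Q G : Type} {n : ℕ} (M : Machine Q G) (order : Fin (2 * n) ≃ Fin n ⊕ Fin n) (L : ℕ)

/-- the segment (of length `L`) of a variable -/
def seg (v : Fin n ⊕ Fin n) : Fin (2 * n / L + 1) :=
  ⟨(order.symm v : ℕ) / L, Nat.lt_succ_of_le (Nat.div_le_div_right (order.symm v).2.le)⟩

/-- the product set of the inputs with a run through the states `s` at the cuts -/
def PS (s : Fin (2 * n / L + 2) → Q) : Set ((Fin n → G) × (Fin n → G)) :=
  {p | M.start (s 0) ∧ M.accept (s (Fin.last _)) ∧ ∀ j : Fin (2 * n / L + 1), ∃ r : ℕ → Q,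
    r (j * L) = s j.castSucc ∧ r (min ((j + 1) * L) (2 * n)) = s j.succ ∧
    ∀ t : Fin (2 * n), (t : ℕ) / L = j → M.step t (r t) (Sum.elim p.1 p.2 (order t)) (r (t + 1))}

theorem box_PS (s : Fin (2 * n / L + 2) → Q) :
    Box (fun i => seg order L (Sum.inl i)) (fun i => seg order L (Sum.inr i))
      (PS M order L s) := by
  classical
  rintro p ⟨hp1, hp2, hp⟩ q ⟨-, -, hq⟩ Λ
  refine ⟨hp1, hp2, fun j => ?_⟩
  have hl : ∀ v : Fin n ⊕ Fin n, Sum.elim
      (mix (fun i => seg order L (Sum.inl i)) (fun i => seg order L (Sum.inr i)) Λ p q).1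
      (mix (fun i => seg order L (Sum.inl i)) (fun i => seg order L (Sum.inr i)) Λ p q).2 v =
      if seg order L v ∈ Λ then Sum.elim p.1 p.2 v else Sum.elim q.1 q.2 v := by
    rintro (i | i) <;> simp [mix]
  have hs : ∀ t : Fin (2 * n), (t : ℕ) / L = j → seg order L (order t) = j := by
    intro t ht
    ext
    simp [seg, ht]
  by_cases hj : j ∈ Λ
  · obtain ⟨r, h1, h2, h3⟩ := hp j
    refine ⟨r, h1, h2, fun t ht => ?_⟩
    rw [hl, hs t ht, if_pos hj]
    exact h3 t ht
  · obtain ⟨r, h1, h2, h3⟩ := hq j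
    refine ⟨r, h1, h2, fun t ht => ?_⟩
    rw [hl, hs t ht, if_neg hj]
    exact h3 t ht

theorem accepts_iff (hL : 0 < L) (p : (Fin n → G) × (Fin n → G)) :
    M.Accepts order p ↔ ∃ s : Fin (2 * n / L + 2) → Q, p ∈ PS M order L s := by
  constructor
  · rintro ⟨r, h0, h1, h2⟩
    refine ⟨fun j => r (min (j * L) (2 * n)), ?_, ?_, fun j => ⟨r, ?_, ?_, fun t _ => h2 t⟩⟩
    · simpa using h0
    · have : 2 * n ≤ (2 * n / L + 1) * L := by
        have := Nat.lt_div_mul_add (a := 2 * n) hL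
        nlinarith
      simp only [Fin.val_last]
      rw [min_eq_right this]
      exact h1
    · have : (j : ℕ) * L ≤ 2 * n := by
        have hj : (j : ℕ) ≤ 2 * n / L := Nat.le_of_lt_succ j.2
        exact (Nat.mul_le_mul_right L hj).trans (Nat.div_mul_le_self _ _)
      simp only [Fin.val_castSucc]
      rw [min_eq_left this]
    · simp
  · rintro ⟨s, h0, h1, h2⟩
    choose r hr1 hr2 hr3 using h2
    have hlt : ∀ t : ℕ, min (t / L) (2 * n / L) < 2 * n / L + 1 := fun t =>
      Nat.lt_succ_of_le (min_le_right _ _)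
    refine ⟨fun t => r ⟨min (t / L) (2 * n / L), hlt t⟩ t, ?_, ?_, fun t => ?_⟩
    · have e : (⟨min (0 / L) (2 * n / L), hlt 0⟩ : Fin (2 * n / L + 1)) = 0 := by
        ext; simp
      have := hr1 0
      simp only [Fin.val_zero, zero_mul, Fin.castSucc_zero] at this
      simp only [e, this]
      exact h0
    · have e : (⟨min (2 * n / L) (2 * n / L), hlt (2 * n)⟩ : Fin (2 * n / L + 1)) =
          Fin.last _ := by
        ext; simp
      have h3 := hr2 (Fin.last _)
      have : 2 * n ≤ (2 * n / L + 1) * L := by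
        have := Nat.lt_div_mul_add (a := 2 * n) hL
        nlinarith
      simp only [Fin.val_last, min_eq_right this, Fin.succ_last] at h3
      simp only [e, h3]
      exact h1
    · have ht : (t : ℕ) / L ≤ 2 * n / L := Nat.div_le_div_right t.2.le
      have e : (⟨min ((t : ℕ) / L) (2 * n / L), hlt t⟩ : Fin (2 * n / L + 1)) =
          ⟨(t : ℕ) / L, Nat.lt_succ_of_le ht⟩ := by
        ext; simp [min_eq_left ht]
      have h3 := hr3 ⟨(t : ℕ) / L, Nat.lt_succ_of_le ht⟩ t rfl
      simp only [e]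
      have ht1 : ((t : ℕ) + 1) / L ≤ 2 * n / L := Nat.div_le_div_right t.2
      have e1 : (⟨min (((t : ℕ) + 1) / L) (2 * n / L), hlt (t + 1)⟩ : Fin (2 * n / L + 1)) =
          ⟨((t : ℕ) + 1) / L, Nat.lt_succ_of_le ht1⟩ := by
        ext; simp [min_eq_left ht1]
      simp only [e1]
      have key : r ⟨((t : ℕ) + 1) / L, Nat.lt_succ_of_le ht1⟩ (t + 1) =
          r ⟨(t : ℕ) / L, Nat.lt_succ_of_le ht⟩ (t + 1) := by
        by_cases hd : L ∣ (t : ℕ) + 1
        · obtain ⟨k, hk⟩ := hd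
          have hk0 : 0 < k := by
            rcases Nat.eq_zero_or_pos k with rfl | h
            · simp at hk
            · exact h
          obtain ⟨k', rfl⟩ : ∃ k', k = k' + 1 := ⟨k - 1, by omega⟩
          have d1 : ((t : ℕ) + 1) / L = k' + 1 := by rw [hk]; exact Nat.mul_div_cancel_left _ hL
          have d2 : (t : ℕ) / L = k' := by
            have : (t : ℕ) = L * k' + (L - 1) := by
              have h5 : L * (k' + 1) = L * k' + L := by ring
              omega
            rw [this, Nat.mul_add_div hL, Nat.div_eq_of_lt (by omega), add_zero]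
          have q1 := hr1 ⟨((t : ℕ) + 1) / L, Nat.lt_succ_of_le ht1⟩
          have q2 := hr2 ⟨(t : ℕ) / L, Nat.lt_succ_of_le ht⟩
          have c1 : ((t : ℕ) + 1) / L * L = t + 1 := by rw [d1, hk]; ring
          have c2 : min (((t : ℕ) / L + 1) * L) (2 * n) = t + 1 := by
            rw [d2, min_eq_left]
            · rw [hk]; ring
            · have := t.2
              calc (k' + 1) * L = t + 1 := by rw [hk]; ring
                _ ≤ 2 * n := this
          simp only [c1, c2] at q1 q2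
          rw [q1, q2]
          congr 1
          ext
          simp [d1, d2]
        · have : ((t : ℕ) + 1) / L = (t : ℕ) / L := by
            rw [Nat.succ_div_of_not_dvd hd]
          have e2 : (⟨((t : ℕ) + 1) / L, Nat.lt_succ_of_le ht1⟩ : Fin (2 * n / L + 1)) =
              ⟨(t : ℕ) / L, Nat.lt_succ_of_le ht⟩ := by ext; exact this
          rw [e2]
      rw [key]
      exact h3

end

section
variable {ι κ τ G : Type} [Fintype ι] [Fintype κ] [Fintype τ] [DecidableEq ι] [DecidableEq κ]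
  [AddCommGroup G] [Fintype G] [DecidableEq G]

/-- covers by product sets, pairs in different classes -/
theorem cover_A (a b : ι → κ) (A : Finset ((ι → G) × (ι → G)))
    (hA : CF (A : Set ((ι → G) × (ι → G)))) (P : τ → Set ((ι → G) × (ι → G)))
    (hP : ∀ s, Box a b (P s)) (hc : ∀ p, p ∈ A ↔ ∃ s, p ∈ P s) :
    ∃ k, #{i | a i ≠ b i} ≤ 4 * k ∧
      #A * Fintype.card G ^ k ≤ Fintype.card τ * Fintype.card G ^ (2 * Fintype.card ι) := by
  classical
  obtain ⟨Λ, hΛ⟩ := exists_label a b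
  refine ⟨_, by convert hΛ, ?_⟩
  have hsub : A ⊆ univ.biUnion fun s => (P s).toFinset := by
    intro p hp
    obtain ⟨s, hs⟩ := (hc p).1 hp
    exact mem_biUnion.2 ⟨s, mem_univ _, Set.mem_toFinset.2 hs⟩
  have h1 : #A ≤ ∑ s, #(P s).toFinset := (card_le_card hsub).trans card_biUnion_le
  calc #A * Fintype.card G ^ #{i | a i ∈ Λ ∧ b i ∉ Λ}
      ≤ (∑ s, #(P s).toFinset) * Fintype.card G ^ #{i | a i ∈ Λ ∧ b i ∉ Λ} := by gcongr
    _ = ∑ s, #(P s).toFinset * Fintype.card G ^ #{i | a i ∈ Λ ∧ b i ∉ Λ} := by rw [sum_mul]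
    _ ≤ ∑ _s : τ, Fintype.card G ^ (2 * Fintype.card ι) := by
        refine sum_le_sum fun s _ => ?_
        convert lemA a b (P s).toFinset (by rw [Set.coe_toFinset]; exact hP s) ?_ Λ
        rw [Set.coe_toFinset]
        intro x y z m1 m2 m3
        exact hA x y z ((hc _).2 ⟨s, m1⟩) ((hc _).2 ⟨s, m2⟩) ((hc _).2 ⟨s, m3⟩)
    _ = _ := by simp

/-- covers by product sets, pairs in the same class -/
theorem cover_B (a b : ι → κ) (A : Finset ((ι → G) × (ι → G)))
    (hA : CF (A : Set ((ι → G) × (ι → G)))) (P : τ → Set ((ι → G) × (ι → G)))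
    (hP : ∀ s, Box a b (P s)) (hc : ∀ p, p ∈ A ↔ ∃ s, p ∈ P s) (δ : ℝ) (hδ : 0 < δ)
    (J : Finset κ)
    (hJ : ∀ j ∈ J, cornersTheoremBound δ ≤ Fintype.card G ^ #{i | a i = j ∧ b i = j}) :
    (#A : ℝ) ≤ Fintype.card τ * (δ ^ #J * (Fintype.card G : ℝ) ^ (2 * Fintype.card ι)) := by
  classical
  have hsub : A ⊆ univ.biUnion fun s => (P s).toFinset := by
    intro p hp
    obtain ⟨s, hs⟩ := (hc p).1 hp
    exact mem_biUnion.2 ⟨s, mem_univ _, Set.mem_toFinset.2 hs⟩
  have h1 : #A ≤ ∑ s, #(P s).toFinset := (card_le_card hsub).trans card_biUnion_le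
  calc (#A : ℝ) ≤ ((∑ s, #(P s).toFinset : ℕ) : ℝ) := by exact_mod_cast h1
    _ = ∑ s, (#(P s).toFinset : ℝ) := by push_cast; rfl
    _ ≤ ∑ _s : τ, (δ ^ #J * (Fintype.card G : ℝ) ^ (2 * Fintype.card ι)) := by
        refine sum_le_sum fun s _ => ?_
        refine lemB a b (P s).toFinset (by rw [Set.coe_toFinset]; exact hP s) ?_ δ hδ J hJ
        rw [Set.coe_toFinset]
        intro x y z m1 m2 m3
        exact hA x y z ((hc _).2 ⟨s, m1⟩) ((hc _).2 ⟨s, m2⟩) ((hc _).2 ⟨s, m3⟩)
    _ = _ := by simp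

end

/-- a number of pairs for which the corners theorem applies -/
noncomputable def small_m (_G : Type) (δ : ℝ) : ℕ := cornersTheoremBound δ

theorem small_m_spec (G : Type) [Fintype G] [Nontrivial G] (δ : ℝ) :
    cornersTheoremBound δ ≤ Fintype.card G ^ small_m G δ :=
  (Nat.lt_pow_self Fintype.one_lt_card).le

/-- explicit form of the power saving -/
theorem main_aux (G : Type) [AddCommGroup G] [Fintype G] [DecidableEq G] [Nontrivial G]
    (Q : Type) [Fintype Q] [Nonempty Q] (m : ℕ) (hm : 0 < m)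
    (hm1 : cornersTheoremBound (1 / (4 * (Fintype.card Q : ℝ) ^ 6)) ≤ 2 ^ m)
    (hm2 : 2 * Fintype.card Q ≤ 2 ^ m)
    (n : ℕ) (M : Machine Q G) (order : Fin (2 * n) ≃ Fin n ⊕ Fin n)
    (A : Finset ((Fin n → G) × (Fin n → G))) (hA : CF (A : Set ((Fin n → G) × (Fin n → G))))
    (hM : ∀ p, p ∈ A ↔ M.Accepts order p) :
    (#A : ℝ) * 2 ^ (n / (8 * (16 * m))) ≤
      4 * (Fintype.card Q : ℝ) ^ 23 * (Fintype.card G : ℝ) ^ (2 * n) := by
  classical
  set w := Fintype.card Q with hw
  set g := Fintype.card G with hg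
  set L := 16 * m with hL
  set t := n / (8 * L) with ht
  have hw1 : 1 ≤ w := Fintype.card_pos
  have hg2 : 2 ≤ g := Fintype.one_lt_card
  have hLpos : 0 < L := by omega
  have ht1 : 8 * L * t ≤ n := by rw [ht]; exact Nat.mul_div_le n (8 * L)
  have ht2 : n < 8 * L * (t + 1) := by
    rw [ht]; exact Nat.lt_mul_div_succ n (by omega)
  have hK : 2 * n / L ≤ 16 * t + 15 := by
    have : 2 * n / L < 16 * (t + 1) := by
      rw [Nat.div_lt_iff_lt_mul hLpos]
      nlinarith
    omega
  let a : Fin n → Fin (2 * n / L + 1) := fun i => seg order L (Sum.inl i)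
  let b : Fin n → Fin (2 * n / L + 1) := fun i => seg order L (Sum.inr i)
  have hc : ∀ p, p ∈ A ↔ ∃ s : Fin (2 * n / L + 2) → Q, p ∈ PS M order L s := fun p => by
    rw [hM, accepts_iff M order L hLpos]
  have hτ : Fintype.card (Fin (2 * n / L + 2) → Q) ≤ w ^ (16 * t + 17) := by
    rw [Fintype.card_fun, Fintype.card_fin]
    exact Nat.pow_le_pow_right hw1 (by omega)
  by_cases hN : n ≤ 2 * #{i | a i ≠ b i}
  · obtain ⟨k, hk1, hk2⟩ := cover_A a b A hA (PS M order L) (box_PS M order L) hc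
    have hkt : L * t ≤ k := by nlinarith
    rw [Fintype.card_fin] at hk2
    have h1 : #A * g ^ (L * t) ≤ w ^ (16 * t + 17) * g ^ (2 * n) :=
      calc #A * g ^ (L * t) ≤ #A * g ^ k := by gcongr; omega
        _ ≤ _ := hk2
        _ ≤ _ := by gcongr
    have h2 : (2 * w) ^ (16 * t) ≤ g ^ (L * t) :=
      calc (2 * w) ^ (16 * t) ≤ (2 ^ m) ^ (16 * t) := by gcongr
        _ = 2 ^ (L * t) := by rw [← pow_mul, hL]; congr 1; ring
        _ ≤ g ^ (L * t) := by gcongr
    have h3 : #A * (2 * w) ^ (16 * t) ≤ w ^ (16 * t) * (w ^ 17 * g ^ (2 * n)) :=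
      calc #A * (2 * w) ^ (16 * t) ≤ #A * g ^ (L * t) := by gcongr
        _ ≤ _ := h1
        _ = _ := by ring
    have h4 : #A * 2 ^ (16 * t) ≤ w ^ 17 * g ^ (2 * n) := by
      have : w ^ (16 * t) * (#A * 2 ^ (16 * t)) ≤ w ^ (16 * t) * (w ^ 17 * g ^ (2 * n)) := by
        calc _ = #A * (2 * w) ^ (16 * t) := by rw [mul_pow]; ring
          _ ≤ _ := h3
      exact Nat.le_of_mul_le_mul_left this (by positivity)
    have h5 : #A * 2 ^ t ≤ 4 * w ^ 23 * g ^ (2 * n) :=
      calc #A * 2 ^ t ≤ #A * 2 ^ (16 * t) := by gcongr <;> omega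
        _ ≤ w ^ 17 * g ^ (2 * n) := h4
        _ ≤ w ^ 23 * g ^ (2 * n) := by gcongr; omega
        _ ≤ 4 * w ^ 23 * g ^ (2 * n) := by nlinarith [Nat.zero_le (w ^ 23 * g ^ (2 * n))]
    exact_mod_cast h5
  · push Not at hN
    let ℓ : Fin (2 * n / L + 1) → ℕ := fun j => #{i | a i = j ∧ b i = j}
    let J : Finset (Fin (2 * n / L + 1)) := {j | m ≤ ℓ j}
    have hℓL : ∀ j, ℓ j ≤ L := by
      intro j
      have : ℓ j ≤ #(Ico (j * L) ((j + 1) * L)) := by
        refine card_le_card_of_injOn (fun i => (order.symm (Sum.inl i) : ℕ)) ?_ ?_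
        · intro i hi
          have h1 := (mem_filter.1 (mem_coe.1 hi)).2.1
          have h2 : (order.symm (Sum.inl i) : ℕ) / L = j := by
            have := congrArg Fin.val h1
            simpa [a, seg] using this
          simp only [coe_Ico, Set.mem_Ico]
          constructor
          · rw [← h2]; exact Nat.div_mul_le_self _ _
          · rw [← h2]
            exact (Nat.lt_mul_div_succ _ hLpos).trans_eq (mul_comm _ _)
        · intro i _ i' _ h
          have := order.symm.injective (Fin.ext h)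
          simpa using this
      rw [Nat.card_Ico] at this
      have h2 : ((j : ℕ) + 1) * L - j * L = L := by
        rw [add_mul, one_mul, Nat.add_sub_cancel_left]
      omega
    have hsum : ∑ j, ℓ j = #{i | a i = b i} := by
      rw [card_eq_sum_card_fiberwise (f := a) (s := {i | a i = b i}) (t := univ)
        (fun _ _ => mem_univ _)]
      refine sum_congr rfl fun j _ => ?_
      rw [filter_filter]
      refine congrArg card (filter_congr fun i _ => ?_)
      constructor
      · rintro ⟨h1, h2⟩; exact ⟨h1.trans h2.symm, h1⟩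
      · rintro ⟨h1, h2⟩; exact ⟨h2, h1 ▸ h2⟩
    have hcompl : #{i | a i = b i} + #{i | a i ≠ b i} = n := by
      have := card_filter_add_card_filter_not (s := (univ : Finset (Fin n)))
        (fun i => a i = b i)
      simpa using this
    have hJc : ∑ j, ℓ j ≤ #J * L + (2 * n / L + 1) * m := by
      rw [← sum_filter_add_sum_filter_not univ (fun j => m ≤ ℓ j)]
      refine Nat.add_le_add ?_ ?_
      · refine (sum_le_card_nsmul _ _ L fun j _ => hℓL j).trans ?_
        simp [J]
      · refine (sum_le_card_nsmul _ _ m fun j hj => ?_).trans ?_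
        · exact (not_le.1 (mem_filter.1 hj).2).le
        · rw [smul_eq_mul]
          refine Nat.mul_le_mul_right _ ((card_le_univ _).trans ?_)
          simp
    have hJ3 : 3 * t ≤ #J + 1 := by
      have h1 : (2 * n / L + 1) * m ≤ L * (t + 1) := by
        calc (2 * n / L + 1) * m ≤ (16 * t + 16) * m := Nat.mul_le_mul_right m (by omega)
          _ = L * (t + 1) := by rw [hL]; ring
      have h2 : 4 * L * t ≤ ∑ j, ℓ j := by
        rw [hsum]
        have h3 : 8 * L * t = 2 * (4 * L * t) := by ring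
        omega
      have h4 : 3 * t * L ≤ (#J + 1) * L := by nlinarith
      exact Nat.le_of_mul_le_mul_right h4 hLpos
    set δ : ℝ := 1 / (4 * (w : ℝ) ^ 6) with hδ
    have hwr : (1 : ℝ) ≤ w := by exact_mod_cast hw1
    have hδ0 : 0 < δ := by positivity
    have hδ1 : δ ≤ 1 := by
      rw [hδ, div_le_one (by positivity)]
      have : (1 : ℝ) ≤ (w : ℝ) ^ 6 := one_le_pow₀ hwr
      linarith
    have hB := cover_B a b A hA (PS M order L) (box_PS M order L) hc δ hδ0 J (fun j hj => by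
      have : m ≤ ℓ j := (mem_filter.1 hj).2
      calc cornersTheoremBound δ ≤ 2 ^ m := hm1
        _ ≤ g ^ m := by gcongr
        _ ≤ g ^ ℓ j := by gcongr; omega)
    rw [Fintype.card_fin] at hB
    have hδJ : δ ^ #J ≤ δ ^ (3 * t) * (4 * (w : ℝ) ^ 6) := by
      have h1 : δ ^ (#J + 1) ≤ δ ^ (3 * t) := pow_le_pow_of_le_one hδ0.le hδ1 hJ3
      have h2 : δ ^ #J = δ ^ (#J + 1) * (4 * (w : ℝ) ^ 6) := by
        rw [pow_succ, mul_assoc, hδ, one_div, inv_mul_cancel₀ (by positivity), mul_one]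
      rw [h2]
      gcongr
    have hτr : ((Fintype.card (Fin (2 * n / L + 2) → Q) : ℕ) : ℝ) ≤ (w : ℝ) ^ (16 * t + 17) := by
      exact_mod_cast hτ
    have hwδ : (w : ℝ) ^ (16 * t) * δ ^ (3 * t) * 2 ^ t ≤ 1 := by
      rw [pow_mul, pow_mul, ← mul_pow, ← mul_pow]
      refine pow_le_one₀ (by positivity) ?_
      have h1 : (w : ℝ) ^ 16 * δ ^ 3 * 2 = 1 / (32 * (w : ℝ) ^ 2) := by
        rw [hδ]; field_simp; ring
      rw [h1, div_le_one (by positivity)]
      nlinarith [one_le_pow₀ (n := 2) hwr]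
    calc (#A : ℝ) * 2 ^ t ≤ ((w : ℝ) ^ (16 * t + 17) * ((δ ^ (3 * t) * (4 * (w : ℝ) ^ 6)) *
          (g : ℝ) ^ (2 * n))) * 2 ^ t := by
          gcongr
          refine hB.trans ?_
          gcongr
      _ = ((w : ℝ) ^ (16 * t) * δ ^ (3 * t) * 2 ^ t) * (4 * (w : ℝ) ^ 23 * (g : ℝ) ^ (2 * n)) := by
          ring
      _ ≤ 1 * (4 * (w : ℝ) ^ 23 * (g : ℝ) ^ (2 * n)) := by gcongr
      _ = _ := one_mul _

/-- power saving for machines with a bounded number of states -/
theorem main (G : Type) [AddCommGroup G] [Fintype G] [Nontrivial G] (w : ℕ) :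
    ∃ c : ℝ, 0 < c ∧ ∃ C : ℝ, 0 < C ∧ ∀ (Q : Type) [Fintype Q], Fintype.card Q ≤ w →
      ∀ (n : ℕ) (M : Machine Q G) (order : Fin (2 * n) ≃ Fin n ⊕ Fin n)
        (A : Finset ((Fin n → G) × (Fin n → G))), CF (A : Set ((Fin n → G) × (Fin n → G))) →
        (∀ p, p ∈ A ↔ M.Accepts order p) →
        (#A : ℝ) ≤ C * ((Fintype.card G : ℝ) ^ (2 * n)) ^ (1 - c) := by
  classical
  have hg2 : 2 ≤ Fintype.card G := Fintype.one_lt_card
  have hg2r : (2 : ℝ) ≤ Fintype.card G := by exact_mod_cast hg2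
  have hlg : 0 < Real.log (Fintype.card G) := Real.log_pos (by linarith)
  -- a common m for all w' ≤ w
  obtain ⟨m, hm0, hm1, hm2⟩ : ∃ m : ℕ, 0 < m ∧
      (∀ v ≤ w, cornersTheoremBound (1 / (4 * (v : ℝ) ^ 6)) ≤ 2 ^ m) ∧ 2 * w ≤ 2 ^ m := by
    refine ⟨1 + 2 * w + ∑ v ∈ range (w + 1), cornersTheoremBound (1 / (4 * (v : ℝ) ^ 6)),
      by omega, fun v hv => ?_, ?_⟩
    · have h1 : cornersTheoremBound (1 / (4 * (v : ℝ) ^ 6)) ≤
          ∑ v ∈ range (w + 1), cornersTheoremBound (1 / (4 * (v : ℝ) ^ 6)) :=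
        single_le_sum (f := fun v : ℕ => cornersTheoremBound (1 / (4 * (v : ℝ) ^ 6)))
          (fun _ _ => Nat.zero_le _) (mem_range.2 (Nat.lt_succ_of_le hv))
      refine le_trans ?_ (Nat.lt_two_pow_self).le
      refine h1.trans ?_
      omega
    · refine le_trans ?_ (Nat.lt_two_pow_self).le
      omega
  set L := 8 * (16 * m) with hL
  have hLpos : 0 < L := by omega
  have hLr : (0 : ℝ) < L := by exact_mod_cast hLpos
  refine ⟨Real.log 2 / (2 * L * Real.log (Fintype.card G)), by positivity,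
    8 * ((w : ℝ) + 1) ^ 23, by positivity, ?_⟩
  intro Q _ hQ n M order A hA hM
  set g : ℝ := (Fintype.card G : ℝ) with hg
  have hg0 : 0 < g := by linarith
  have hrhs : ((g ^ (2 * n)) : ℝ) ^ (1 - Real.log 2 / (2 * L * Real.log g)) =
      g ^ (2 * n) * (2 : ℝ) ^ (-((n : ℝ) / L)) := by
    rw [sub_eq_add_neg, Real.rpow_add (by positivity), Real.rpow_one]
    congr 1
    rw [← Real.rpow_natCast g (2 * n), ← Real.rpow_mul hg0.le,
      Real.rpow_def_of_pos hg0, Real.rpow_def_of_pos (by norm_num : (0 : ℝ) < 2)]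
    congr 1
    push_cast
    field_simp
  rw [hrhs]
  rcases isEmpty_or_nonempty Q with hE | hne
  · have : A = ∅ := by
      refine eq_empty_of_forall_notMem fun p hp => ?_
      obtain ⟨r, -⟩ := (hM p).1 hp
      exact hE.elim (r 0)
    rw [this]
    simp only [card_empty, Nat.cast_zero]
    positivity
  have haux := main_aux G Q m hm0 (hm1 _ hQ) ((Nat.mul_le_mul_left 2 hQ).trans hm2) n M order A
    hA hM
  rw [← hL] at haux
  have hQr : (Fintype.card Q : ℝ) ≤ w + 1 := by
    have : (Fintype.card Q : ℝ) ≤ w := by exact_mod_cast hQ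
    linarith
  have h2t : (2 : ℝ) ^ ((n : ℝ) / L) ≤ 2 * 2 ^ (n / L) := by
    have h1 : (n : ℝ) / L ≤ ((n / L : ℕ) : ℝ) + 1 := by
      rw [div_le_iff₀ hLr]
      have : n < L * (n / L + 1) := Nat.lt_mul_div_succ n hLpos
      have h2 : (n : ℝ) < L * ((n / L : ℕ) + 1) := by exact_mod_cast this
      linarith
    calc (2 : ℝ) ^ ((n : ℝ) / L) ≤ (2 : ℝ) ^ (((n / L : ℕ) : ℝ) + 1) :=
          Real.rpow_le_rpow_of_exponent_le (by norm_num) h1
      _ = 2 * 2 ^ (n / L) := by
          rw [Real.rpow_add (by norm_num), Real.rpow_natCast, Real.rpow_one, mul_comm]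
  have hpos : (0 : ℝ) < (2 : ℝ) ^ ((n : ℝ) / L) := by positivity
  rw [Real.rpow_neg (by norm_num), ← mul_assoc, ← div_eq_mul_inv, le_div_iff₀ hpos]
  calc (#A : ℝ) * (2 : ℝ) ^ ((n : ℝ) / L) ≤ (#A : ℝ) * (2 * 2 ^ (n / L)) := by gcongr
    _ = 2 * ((#A : ℝ) * 2 ^ (n / L)) := by ring
    _ ≤ 2 * (4 * (Fintype.card Q : ℝ) ^ 23 * g ^ (2 * n)) := by gcongr
    _ ≤ 2 * (4 * ((w : ℝ) + 1) ^ 23 * g ^ (2 * n)) := by gcongr
    _ = 8 * ((w : ℝ) + 1) ^ 23 * g ^ (2 * n) := by ring

end Pool.Agent.TH380.BW
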