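import Mathlib.Combinatorics.Additive.Corner.Roth
import Mathlib.Data.Fintype.BigOperators

/-!
Corner-free sets that are product sets with respect to a partition of the coordinates.
-/

set_option autoImplicit false

open Finset Function

namespace Pool.Agent.TH380.BW

/-- `A ⊆ H × H` contains no nontrivial corner `(x, y), (x, y + z), (x + z, y)`, `z ≠ 0`. -/
def CF {H : Type} [AddCommGroup H] (A : Set (H × H)) : Prop :=
  ∀ x y z : H, (x, y) ∈ A → (x, y + z) ∈ A → (x + z, y) ∈ A → z = 0

section
variable {ι κ G : Type} [Fintype ι] [AddCommGroup G]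

open scoped Classical in
/-- mix of two points: coordinates of the classes in `Λ` from `p`, the others from `q` -/
noncomputable def mix (a b : ι → κ) (Λ : Set κ) (p q : (ι → G) × (ι → G)) :
    (ι → G) × (ι → G) :=
  (fun i => if a i ∈ Λ then p.1 i else q.1 i, fun i => if b i ∈ Λ then p.2 i else q.2 i)

/-- closed under mixing -/
def Box (a b : ι → κ) (P : Set ((ι → G) × (ι → G))) : Prop :=
  ∀ p ∈ P, ∀ q ∈ P, ∀ Λ : Set κ, mix a b Λ p q ∈ P

variable [Fintype G] [DecidableEq ι]

open scoped Classical in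
/-- product sets and a labelling of the classes -/
theorem lemA (a b : ι → κ) (P : Finset ((ι → G) × (ι → G)))
    (hB : Box a b (P : Set ((ι → G) × (ι → G)))) (hP : CF (P : Set ((ι → G) × (ι → G))))
    (Λ : Set κ) :
    #P * Fintype.card G ^ #{i | a i ∈ Λ ∧ b i ∉ Λ} ≤ Fintype.card G ^ (2 * Fintype.card ι) := by
  classical
  set I : Finset ι := {i | a i ∈ Λ ∧ b i ∉ Λ} with hI
  let f : (ι → G) × (ι → G) → (ι → G) × ({i // i ∉ I} → G) :=
    fun p => (p.1 - p.2, fun i => p.2 i)
  have hinj : Set.InjOn f P := by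
    rintro ⟨x, y⟩ hp ⟨x', y'⟩ hq h
    simp only [f, Prod.mk.injEq] at h
    obtain ⟨h1, h2⟩ := h
    have hy : ∀ i, i ∉ I → y i = y' i := fun i hi => congrFun h2 ⟨i, hi⟩
    have hd : ∀ i, x i - y i = x' i - y' i := fun i => congrFun h1 i
    have hx : ∀ i, i ∉ I → x i = x' i := fun i hi => by
      have := hd i
      rw [hy i hi] at this
      exact sub_left_injective this
    have hIm : ∀ i, i ∈ I ↔ a i ∈ Λ ∧ b i ∉ Λ := fun i => by simp [hI]
    have e1 : mix a b Λ (x', y') (x, y) = (x + (x' - x), y) := by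
      refine Prod.ext (funext fun i => ?_) (funext fun i => ?_)
      · simp only [mix, Pi.add_apply, Pi.sub_apply, add_sub_cancel]
        split_ifs with hc
        · rfl
        · exact hx i (fun hi => hc ((hIm i).1 hi).1)
      · simp only [mix]
        split_ifs with hc
        · exact (hy i (fun hi => ((hIm i).1 hi).2 hc)).symm
        · rfl
    have e2 : mix a b Λ (x, y) (x', y') = (x, y + (x' - x)) := by
      refine Prod.ext (funext fun i => ?_) (funext fun i => ?_)
      · simp only [mix]
        split_ifs with hc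
        · rfl
        · exact (hx i (fun hi => hc ((hIm i).1 hi).1)).symm
      · have h3 : y i + (x' i - x i) = y' i := by
          have := hd i
          rw [sub_eq_sub_iff_add_eq_add] at this
          rw [← add_sub_assoc, sub_eq_iff_eq_add, add_comm (y i), ← this, add_comm]
        simp only [mix, Pi.add_apply, Pi.sub_apply, h3]
        split_ifs with hc
        · exact hy i (fun hi => ((hIm i).1 hi).2 hc)
        · rfl
    have m1 : (x + (x' - x), y) ∈ (P : Set ((ι → G) × (ι → G))) := by
      rw [← e1]; exact hB _ hq _ hp Λ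
    have m2 : (x, y + (x' - x)) ∈ (P : Set ((ι → G) × (ι → G))) := by
      rw [← e2]; exact hB _ hp _ hq Λ
    have h0 := hP x y (x' - x) hp m2 m1
    have hxx : x' = x := sub_eq_zero.1 h0
    subst hxx
    have : y = y' := by
      funext i
      have := hd i
      exact sub_right_injective this
    rw [this]
  have hcard : #P ≤ Fintype.card ((ι → G) × ({i // i ∉ I} → G)) := by
    rw [← card_univ]
    exact card_le_card_of_injOn f (fun _ _ => mem_univ _) hinj
  have hc2 : Fintype.card {i // i ∉ I} = Fintype.card ι - #I := by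
    rw [Fintype.card_subtype_compl]
    simp
  rw [Fintype.card_prod, Fintype.card_fun, Fintype.card_fun, hc2, ← pow_add] at hcard
  have hIle : #I ≤ Fintype.card ι := card_le_univ _
  calc #P * Fintype.card G ^ #I
      ≤ Fintype.card G ^ (Fintype.card ι + (Fintype.card ι - #I)) * Fintype.card G ^ #I := by
        gcongr
    _ = Fintype.card G ^ (2 * Fintype.card ι) := by
        rw [← pow_add]; congr 1; omega

omit [AddCommGroup G] [Fintype G] [DecidableEq ι] in
open scoped Classical in
/-- a labelling separates a quarter of the pairs -/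
theorem exists_label [Fintype κ] (a b : ι → κ) :
    ∃ Λ : Set κ, #{i | a i ≠ b i} ≤ 4 * #{i | a i ∈ Λ ∧ b i ∉ Λ} := by
  classical
  by_contra hcon
  push Not at hcon
  let T : Finset (κ → Bool) := univ
  have key : ∀ i ∈ (univ.filter fun i => a i ≠ b i),
      #T ≤ 4 * #{l : κ → Bool | l (a i) = true ∧ l (b i) = false} := by
    intro i hi
    have hab : a i ≠ b i := (mem_filter.1 hi).2
    let φ : (κ → Bool) → (κ → Bool) := fun l => update (update l (a i) true) (b i) false
    have himg : T.image φ ⊆ ({l : κ → Bool | l (a i) = true ∧ l (b i) = false} : Finset _) := by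
      intro l hl
      obtain ⟨l', -, rfl⟩ := mem_image.1 hl
      simp [φ, update_of_ne hab]
    have hfib := card_le_mul_card_image (f := φ) T 4 (by
      intro m hm
      have hsub : #{l ∈ T | φ l = m} ≤ Fintype.card (Bool × Bool) := by
        rw [← card_univ]
        refine card_le_card_of_injOn (fun l => (l (a i), l (b i))) (fun _ _ => mem_univ _) ?_
        intro l hl l' hl' h
        simp only [Prod.mk.injEq] at h
        have h1 : φ l = φ l' := by
          rw [(mem_filter.1 hl).2, (mem_filter.1 hl').2]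
        funext k
        by_cases hka : k = a i
        · rw [hka]; exact h.1
        by_cases hkb : k = b i
        · rw [hkb]; exact h.2
        have := congrFun h1 k
        simpa [φ, update_of_ne hka, update_of_ne hkb] using this
      simpa using hsub)
    exact hfib.trans (Nat.mul_le_mul_left _ (card_le_card himg))
  have h1 : ∑ i ∈ (univ.filter fun i => a i ≠ b i), #T ≤
      ∑ i ∈ (univ.filter fun i => a i ≠ b i),
        4 * #{l : κ → Bool | l (a i) = true ∧ l (b i) = false} := sum_le_sum key
  have h2 : ∑ i ∈ (univ.filter fun i => a i ≠ b i),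
        4 * #{l : κ → Bool | l (a i) = true ∧ l (b i) = false} ≤
      ∑ l ∈ T, 4 * #{i | a i ∈ {k | l k = true} ∧ b i ∉ {k | l k = true}} := by
    rw [← mul_sum, ← mul_sum]
    refine Nat.mul_le_mul_left _ ?_
    simp only [card_filter]
    rw [sum_comm]
    refine sum_le_sum fun l _ => ?_
    refine (sum_le_sum_of_subset (filter_subset _ _)).trans ?_
    refine sum_le_sum fun i _ => ?_
    simp
  have h3 : ∑ l ∈ T, 4 * #{i | a i ∈ {k | l k = true} ∧ b i ∉ {k | l k = true}} <
      ∑ l ∈ T, #{i | a i ≠ b i} := by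
    refine sum_lt_sum_of_nonempty ⟨fun _ => true, mem_univ _⟩ fun l _ => ?_
    convert hcon {k | l k = true}
  have h4 := h1.trans_lt (h2.trans_lt h3)
  simp only [sum_const, smul_eq_mul] at h4
  rw [mul_comm] at h4
  exact lt_irrefl _ h4

/-- a corner-free set in a large group has small density -/
theorem small_of_CF {H : Type} [AddCommGroup H] [Fintype H] (δ : ℝ) (hδ : 0 < δ)
    (hH : cornersTheoremBound δ ≤ Fintype.card H) (A : Finset (H × H))
    (hA : CF (A : Set (H × H))) : (#A : ℝ) ≤ δ * (Fintype.card H : ℝ) ^ 2 := by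
  classical
  by_contra hcon
  push Not at hcon
  refine corners_theorem δ hδ hH A hcon.le ?_
  rintro x₁ y₁ x₂ y₂ ⟨h1, h2, h3, h4⟩
  have h5 : y₂ = y₁ + (x₂ - x₁) := by
    rw [eq_comm, ← add_sub_assoc, sub_eq_iff_eq_add, add_comm y₁ x₂, ← h4, add_comm]
  have h6 : x₂ = x₁ + (x₂ - x₁) := by abel
  have := hA x₁ y₁ (x₂ - x₁) h1 (by rw [← h5]; exact h2) (by rw [← h6]; exact h3)
  exact (sub_eq_zero.1 this).symm

/-- the part of a corner-free set in one class -/
theorem lemB1 [DecidableEq G] [DecidableEq κ] (a b : ι → κ) (j : κ)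
    (R : Finset ((ι → G) × (ι → G))) (hR : CF (R : Set ((ι → G) × (ι → G))))
    (p : (ι → G) × (ι → G))
    (h1 : ∀ q ∈ R, ∀ i, a i ≠ j → q.1 i = p.1 i) (h2 : ∀ q ∈ R, ∀ i, b i ≠ j → q.2 i = p.2 i)
    (δ : ℝ) (hδ : 0 < δ)
    (hm : cornersTheoremBound δ ≤ Fintype.card G ^ #{i | a i = j ∧ b i = j}) :
    (#R : ℝ) ≤ δ * (Fintype.card G : ℝ) ^ (#{i | a i = j} + #{i | b i = j}) := by
  let E := {i : ι // a i = j ∧ b i = j}
  let U := {i : ι // a i = j ∧ b i ≠ j}
  let V := {i : ι // b i = j ∧ a i ≠ j}
  have hEc : Fintype.card E = #{i | a i = j ∧ b i = j} := Fintype.card_subtype _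
  have hUc : Fintype.card U = #{i | a i = j ∧ b i ≠ j} := Fintype.card_subtype _
  have hVc : Fintype.card V = #{i | b i = j ∧ a i ≠ j} := Fintype.card_subtype _
  let φ : (ι → G) × (ι → G) → (U → G) × (V → G) := fun q => (fun i => q.1 i, fun i => q.2 i)
  let ψ : (ι → G) × (ι → G) → (E → G) × (E → G) := fun q => (fun i => q.1 i, fun i => q.2 i)
  have hfib : ∀ c ∈ R.image φ, #{q ∈ R | φ q = c} ≤
      ⌊δ * (Fintype.card (E → G) : ℝ) ^ 2⌋₊ := by
    intro c _
    refine Nat.le_floor ?_
    have hinj : Set.InjOn ψ ({q ∈ R | φ q = c} : Finset _) := by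
      rintro q hq q' hq' h
      have hq1 := (mem_filter.1 (mem_coe.1 hq))
      have hq2 := (mem_filter.1 (mem_coe.1 hq'))
      have hφ : φ q = φ q' := by rw [hq1.2, hq2.2]
      simp only [φ, ψ, Prod.mk.injEq] at h hφ
      refine Prod.ext (funext fun i => ?_) (funext fun i => ?_)
      · by_cases ha : a i = j
        · by_cases hb : b i = j
          · exact congrFun h.1 ⟨i, ha, hb⟩
          · exact congrFun hφ.1 ⟨i, ha, hb⟩
        · rw [h1 q hq1.1 i ha, h1 q' hq2.1 i ha]
      · by_cases hb : b i = j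
        · by_cases ha : a i = j
          · exact congrFun h.2 ⟨i, ha, hb⟩
          · exact congrFun hφ.2 ⟨i, hb, ha⟩
        · rw [h2 q hq1.1 i hb, h2 q' hq2.1 i hb]
    rw [← card_image_of_injOn hinj]
    refine small_of_CF δ hδ (by rw [Fintype.card_fun, hEc]; exact hm) _ ?_
    intro u v z m1 m2 m3
    simp only [coe_image, Set.mem_image, mem_coe] at m1 m2 m3
    obtain ⟨q1, hq1, e1⟩ := m1
    obtain ⟨q2, hq2, e2⟩ := m2
    obtain ⟨q3, hq3, e3⟩ := m3
    rw [mem_filter] at hq1 hq2 hq3
    have f12 : φ q1 = φ q2 := by rw [hq1.2, hq2.2]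
    have f13 : φ q1 = φ q3 := by rw [hq1.2, hq3.2]
    simp only [φ, ψ, Prod.mk.injEq] at e1 e2 e3 f12 f13
    let Z : ι → G := fun i => if h : a i = j ∧ b i = j then z ⟨i, h⟩ else 0
    have hZ1 : ∀ i (h : a i = j ∧ b i = j), Z i = z ⟨i, h⟩ := fun i h => by simp [Z, h]
    have hZ0 : ∀ i, ¬ (a i = j ∧ b i = j) → Z i = 0 := fun i h => by
      simp only [Z, dif_neg h]
    have g2 : q2 = (q1.1, q1.2 + Z) := by
      refine Prod.ext (funext fun i => ?_) (funext fun i => ?_)
      · by_cases ha : a i = j
        · by_cases hb : b i = j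
          · have r1 := congrFun e2.1 ⟨i, ha, hb⟩
            have r2 := congrFun e1.1 ⟨i, ha, hb⟩
            simp only at r1 r2 ⊢
            rw [r1, r2]
          · exact (congrFun f12.1 ⟨i, ha, hb⟩).symm
        · simp only
          rw [h1 q1 hq1.1 i ha, h1 q2 hq2.1 i ha]
      · simp only [Pi.add_apply]
        by_cases hb : b i = j
        · by_cases ha : a i = j
          · have r1 := congrFun e2.2 ⟨i, ha, hb⟩
            have r2 := congrFun e1.2 ⟨i, ha, hb⟩
            simp only [Pi.add_apply] at r1 r2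
            rw [r1, r2, hZ1 i ⟨ha, hb⟩]
          · rw [hZ0 i (fun h => ha h.1), add_zero]
            exact (congrFun f12.2 ⟨i, hb, ha⟩).symm
        · rw [hZ0 i (fun h => hb h.2), add_zero, h2 q1 hq1.1 i hb, h2 q2 hq2.1 i hb]
    have g3 : q3 = (q1.1 + Z, q1.2) := by
      refine Prod.ext (funext fun i => ?_) (funext fun i => ?_)
      · simp only [Pi.add_apply]
        by_cases ha : a i = j
        · by_cases hb : b i = j
          · have r1 := congrFun e3.1 ⟨i, ha, hb⟩
            have r2 := congrFun e1.1 ⟨i, ha, hb⟩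
            simp only [Pi.add_apply] at r1 r2
            rw [r1, r2, hZ1 i ⟨ha, hb⟩]
          · rw [hZ0 i (fun h => hb h.2), add_zero]
            exact (congrFun f13.1 ⟨i, ha, hb⟩).symm
        · rw [hZ0 i (fun h => ha h.1), add_zero, h1 q1 hq1.1 i ha, h1 q3 hq3.1 i ha]
      · by_cases hb : b i = j
        · by_cases ha : a i = j
          · have r1 := congrFun e3.2 ⟨i, ha, hb⟩
            have r2 := congrFun e1.2 ⟨i, ha, hb⟩
            simp only at r1 r2 ⊢
            rw [r1, r2]
          · exact (congrFun f13.2 ⟨i, hb, ha⟩).symm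
        · simp only
          rw [h2 q1 hq1.1 i hb, h2 q3 hq3.1 i hb]
    have h0 := hR q1.1 q1.2 Z hq1.1 (by rw [← g2]; exact hq2.1) (by rw [← g3]; exact hq3.1)
    funext i
    rw [← hZ1 i.1 i.2, h0]
    rfl
  have hcard := card_le_mul_card_image (f := φ) R _ hfib
  have himg : #(R.image φ) ≤ Fintype.card G ^ (Fintype.card U + Fintype.card V) := by
    refine (card_le_univ _).trans ?_
    rw [Fintype.card_prod, Fintype.card_fun, Fintype.card_fun, pow_add]
  have e1 : #{i | a i = j} = Fintype.card U + Fintype.card E := by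
    rw [hUc, hEc, add_comm, ← card_filter_add_card_filter_not (s := {i | a i = j})
      (fun i => b i = j), filter_filter, filter_filter]
  have e2 : #{i | b i = j} = Fintype.card V + Fintype.card E := by
    rw [hVc, hEc, add_comm, ← card_filter_add_card_filter_not (s := {i | b i = j})
      (fun i => a i = j), filter_filter, filter_filter]
    congr 2
    ext i
    simp [and_comm]
  have hfl : ((⌊δ * (Fintype.card (E → G) : ℝ) ^ 2⌋₊ : ℕ) : ℝ) ≤
      δ * (Fintype.card (E → G) : ℝ) ^ 2 := Nat.floor_le (by positivity)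
  calc (#R : ℝ) ≤ ((⌊δ * (Fintype.card (E → G) : ℝ) ^ 2⌋₊ * #(R.image φ) : ℕ) : ℝ) := by
        exact_mod_cast hcard
    _ = (⌊δ * (Fintype.card (E → G) : ℝ) ^ 2⌋₊ : ℝ) * (#(R.image φ) : ℝ) := by push_cast; ring
    _ ≤ (δ * (Fintype.card (E → G) : ℝ) ^ 2) *
        ((Fintype.card G ^ (Fintype.card U + Fintype.card V) : ℕ) : ℝ) := by
        gcongr
    _ = δ * (Fintype.card G : ℝ) ^ (#{i | a i = j} + #{i | b i = j}) := by
        rw [Fintype.card_fun, e1, e2]
        push_cast
        ring

/-- product sets: many classes that contain many pairs -/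
theorem lemB [DecidableEq G] [Fintype κ] [DecidableEq κ] (a b : ι → κ)
    (P : Finset ((ι → G) × (ι → G)))
    (hB : Box a b (P : Set ((ι → G) × (ι → G)))) (hP : CF (P : Set ((ι → G) × (ι → G))))
    (δ : ℝ) (hδ : 0 < δ) (J : Finset κ)
    (hJ : ∀ j ∈ J, cornersTheoremBound δ ≤ Fintype.card G ^ #{i | a i = j ∧ b i = j}) :
    (#P : ℝ) ≤ δ ^ #J * (Fintype.card G : ℝ) ^ (2 * Fintype.card ι) := by
  classical
  rcases P.eq_empty_or_nonempty with rfl | ⟨p, hp⟩
  · simp only [card_empty, Nat.cast_zero]
    positivity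
  let R : κ → Finset ((ι → G) × (ι → G)) := fun j => P.image fun q => mix a b {j} q p
  have hRP : ∀ j, R j ⊆ P := by
    intro j q hq
    obtain ⟨q', hq', rfl⟩ := mem_image.1 hq
    exact hB _ hq' _ hp {j}
  have hR1 : ∀ j, ∀ q ∈ R j, ∀ i, a i ≠ j → q.1 i = p.1 i := by
    intro j q hq i hi
    obtain ⟨q', hq', rfl⟩ := mem_image.1 hq
    simp [mix, hi]
  have hR2 : ∀ j, ∀ q ∈ R j, ∀ i, b i ≠ j → q.2 i = p.2 i := by
    intro j q hq i hi
    obtain ⟨q', hq', rfl⟩ := mem_image.1 hq
    simp [mix, hi]
  have hprod : #P ≤ ∏ j, #(R j) := by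
    rw [← Fintype.card_piFinset]
    refine card_le_card_of_injOn (fun q j => mix a b {j} q p) ?_ ?_
    · intro q hq
      rw [mem_coe, Fintype.mem_piFinset]
      exact fun j => mem_image_of_mem _ hq
    · intro q _ q' _ h
      have h' : ∀ j, mix a b {j} q p = mix a b {j} q' p := fun j => congrFun h j
      refine Prod.ext (funext fun i => ?_) (funext fun i => ?_)
      · have := congrFun (congrArg Prod.fst (h' (a i))) i
        simpa [mix] using this
      · have := congrFun (congrArg Prod.snd (h' (b i))) i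
        simpa [mix] using this
  have hbig : ∀ j, (#(R j) : ℝ) ≤ (if j ∈ J then δ else 1) *
      (Fintype.card G : ℝ) ^ (#{i | a i = j} + #{i | b i = j}) := by
    intro j
    split_ifs with hj
    · exact lemB1 a b j (R j) (fun x y z h1 h2 h3 => hP x y z (hRP j h1) (hRP j h2) (hRP j h3))
        p (hR1 j) (hR2 j) δ hδ (hJ j hj)
    · rw [one_mul]
      have : #(R j) ≤ Fintype.card (({i // a i = j} → G) × ({i // b i = j} → G)) := by
        rw [← card_univ]
        refine card_le_card_of_injOn (fun q => (fun i => q.1 i, fun i => q.2 i))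
          (fun _ _ => mem_univ _) ?_
        intro q hq q' hq' h
        simp only [Prod.mk.injEq] at h
        refine Prod.ext (funext fun i => ?_) (funext fun i => ?_)
        · by_cases ha : a i = j
          · exact congrFun h.1 ⟨i, ha⟩
          · rw [hR1 j q hq i ha, hR1 j q' hq' i ha]
        · by_cases hb : b i = j
          · exact congrFun h.2 ⟨i, hb⟩
          · rw [hR2 j q hq i hb, hR2 j q' hq' i hb]
      rw [Fintype.card_prod, Fintype.card_fun, Fintype.card_fun, Fintype.card_subtype,
        Fintype.card_subtype, ← pow_add] at this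
      exact_mod_cast this
  have hsum : ∑ j, (#{i | a i = j} + #{i | b i = j}) = 2 * Fintype.card ι := by
    rw [sum_add_distrib, two_mul, ← card_univ,
      ← card_eq_sum_card_fiberwise (f := a) (s := univ) (t := univ) (fun _ _ => mem_univ _),
      ← card_eq_sum_card_fiberwise (f := b) (s := univ) (t := univ) (fun _ _ => mem_univ _)]
  calc (#P : ℝ) ≤ ((∏ j, #(R j) : ℕ) : ℝ) := by exact_mod_cast hprod
    _ = ∏ j, (#(R j) : ℝ) := by push_cast; rfl
    _ ≤ ∏ j, ((if j ∈ J then δ else 1) *
      (Fintype.card G : ℝ) ^ (#{i | a i = j} + #{i | b i = j})) :=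
        prod_le_prod (fun j _ => Nat.cast_nonneg _) (fun j _ => hbig j)
    _ = δ ^ #J * (Fintype.card G : ℝ) ^ (2 * Fintype.card ι) := by
        rw [prod_mul_distrib, prod_pow_eq_pow_sum, hsum, prod_ite_mem, univ_inter, prod_const]

end

end Pool.Agent.TH380.BW
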